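import Pool.Agent.Helper71.PR.Goals

/-!
# INV: a compact semigroup of matrices of determinant one up to sign preserves a positive definite form
-/

set_option autoImplicit false

namespace Pool.Agent.Helper69.PR

open Matrix Filter Topology Pool.Agent.Helper71.PR

theorem inv_sphere (ρ : ℕ) : IsCompact {x : Fin ρ → ℝ | x ⬝ᵥ x = 1} := by
  apply Metric.isCompact_of_isClosed_isBounded
  · exact isClosed_eq (by simp only [dotProduct]; fun_prop) continuous_const
  · refine (Metric.isBounded_closedBall (x := (0 : Fin ρ → ℝ)) (r := 1)).subset ?_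
    intro x hx
    rw [mem_closedBall_zero_iff, pi_norm_le_iff_of_nonneg zero_le_one]
    intro i
    have h1 : x i * x i ≤ x ⬝ᵥ x :=
      Finset.single_le_sum (f := fun j => x j * x j) (fun j _ => mul_self_nonneg (x j)) (Finset.mem_univ i)
    have h2 : x ⬝ᵥ x = 1 := hx
    rw [Real.norm_eq_abs, abs_le_one_iff_mul_self_le_one]
    linarith

theorem inv_lower {ρ : ℕ} (hρ : 0 < ρ) (K : Set (Mt ρ)) (hK : IsCompact K) (hne : K.Nonempty)
    (hdet : ∀ A ∈ K, |A.det| = 1) :
    ∃ c : ℝ, 0 < c ∧ ∀ B ∈ K, ∀ x : Fin ρ → ℝ, x ⬝ᵥ x = 1 → c ≤ (B *ᵥ x) ⬝ᵥ (B *ᵥ x) := by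
  have hcomp := hK.prod (inv_sphere ρ)
  obtain ⟨B0, hB0⟩ := hne
  have hx0 : (Pi.single (⟨0, hρ⟩ : Fin ρ) (1 : ℝ)) ∈ {x : Fin ρ → ℝ | x ⬝ᵥ x = 1} := by
    simp
  obtain ⟨p, hp, hmin⟩ := hcomp.exists_isMinOn (f := fun p : Mt ρ × (Fin ρ → ℝ) => (p.1 *ᵥ p.2) ⬝ᵥ (p.1 *ᵥ p.2))
    ⟨(B0, _), hB0, hx0⟩ (by
      apply Continuous.continuousOn
      have h1 : Continuous fun p : Mt ρ × (Fin ρ → ℝ) => p.1 *ᵥ p.2 := Continuous.matrix_mulVec continuous_fst continuous_snd
      exact Continuous.dotProduct h1 h1)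
  refine ⟨(p.1 *ᵥ p.2) ⬝ᵥ (p.1 *ᵥ p.2), ?_, ?_⟩
  · have hnn : 0 ≤ (p.1 *ᵥ p.2) ⬝ᵥ (p.1 *ᵥ p.2) := Finset.sum_nonneg fun j _ => mul_self_nonneg _
    refine lt_of_le_of_ne hnn ?_
    intro h0
    have h1 : p.1 *ᵥ p.2 = 0 := dotProduct_self_eq_zero.mp h0.symm
    have h2 : p.1.det ≠ 0 := by
      intro h3
      have := hdet p.1 hp.1
      rw [h3] at this
      simp at this
    have h3 : p.2 = 0 := Matrix.eq_zero_of_mulVec_eq_zero h2 h1
    have h4 : p.2 ⬝ᵥ p.2 = 1 := hp.2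
    rw [h3] at h4
    simp at h4
  · intro B hB x hx
    exact hmin (a := (B, x)) ⟨hB, hx⟩

theorem inv_lem (h : G_DETC) : G_INV := by
  intro ρ K hK hne hmul hdet
  rcases Nat.eq_zero_or_pos ρ with rfl | hρ
  · exact ⟨1, PosDef.one, fun A _ => Subsingleton.elim _ _⟩
  obtain ⟨c, hc0, hc⟩ := inv_lower hρ K hK hne hdet
  -- the hull
  set S : Set (Mt ρ) := (fun B : Mt ρ => Bᵀ * B) '' K with hS
  set C : Set (Mt ρ) := closure (convexHull ℝ S) with hC
  have hlc : LocallyConvexSpace ℝ (Mt ρ) := inferInstanceAs (LocallyConvexSpace ℝ (Fin ρ → Fin ρ → ℝ))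
  have hSc : IsCompact S := hK.image (by fun_prop)
  have hCc : IsCompact C := by
    exact isCompact_iff_totallyBounded_isComplete.mpr
      ⟨(TotallyBounded.convexHull hSc.totallyBounded).closure, isClosed_closure.isComplete⟩
  have hCconv : Convex ℝ C := (convex_convexHull ℝ S).closure
  have hSC : S ⊆ C := (subset_convexHull ℝ S).trans subset_closure
  -- positivity
  have hpos : ∀ Q ∈ C, Q.PosDef := by
    have hsub : C ⊆ {Q : Mt ρ | Qᵀ = Q ∧ ∀ x : Fin ρ → ℝ, x ⬝ᵥ x = 1 → c ≤ x ⬝ᵥ (Q *ᵥ x)} := by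
      apply closure_minimal
      · apply convexHull_min
        · rintro _ ⟨B, hB, rfl⟩
          refine ⟨by simp, fun x hx => ?_⟩
          have h1 : x ⬝ᵥ ((Bᵀ * B) *ᵥ x) = (B *ᵥ x) ⬝ᵥ (B *ᵥ x) := by
            rw [← mulVec_mulVec, dotProduct_mulVec, vecMul_transpose]
          simpa only [h1] using hc B hB x hx
        · intro Q1 h1 Q2 h2 a b ha hb hab
          refine ⟨by rw [transpose_add, transpose_smul, transpose_smul, h1.1, h2.1], fun x hx => ?_⟩
          have e1 := h1.2 x hx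
          have e2 := h2.2 x hx
          rw [add_mulVec, smul_mulVec, smul_mulVec, dotProduct_add, dotProduct_smul, dotProduct_smul, smul_eq_mul,
            smul_eq_mul]
          nlinarith [mul_le_mul_of_nonneg_left e1 ha, mul_le_mul_of_nonneg_left e2 hb]
      · rw [Set.ofPred_and]
        apply IsClosed.inter
        · exact isClosed_eq (by fun_prop) continuous_id
        · simp only [Set.ofPred_forall]
          refine isClosed_iInter fun x => isClosed_iInter fun _ => ?_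
          refine isClosed_le continuous_const ?_
          exact Continuous.dotProduct continuous_const (Continuous.matrix_mulVec continuous_id continuous_const)
    intro Q hQ
    obtain ⟨hs, hb⟩ := hsub hQ
    refine PosDef.of_dotProduct_mulVec_pos (by rw [IsHermitian, conjTranspose_eq_transpose_of_trivial]; exact hs) ?_
    intro x hx
    rw [star_trivial]
    have hxx : 0 < x ⬝ᵥ x := by
      have h0 : 0 ≤ x ⬝ᵥ x := Finset.sum_nonneg fun j _ => mul_self_nonneg _
      exact lt_of_le_of_ne h0 (fun e => hx (dotProduct_self_eq_zero.mp e.symm))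
    set s := Real.sqrt (x ⬝ᵥ x) with hsd
    have hs0 : 0 < s := Real.sqrt_pos.mpr hxx
    have hss : s * s = x ⬝ᵥ x := Real.mul_self_sqrt hxx.le
    have h1 := hb (s⁻¹ • x) (by
      rw [smul_dotProduct, dotProduct_smul, smul_eq_mul, smul_eq_mul, ← hss]
      field_simp)
    rw [mulVec_smul, smul_dotProduct, dotProduct_smul, smul_eq_mul, smul_eq_mul] at h1
    have h2 : 0 < s⁻¹ * (s⁻¹ * (x ⬝ᵥ Q *ᵥ x)) := lt_of_lt_of_le hc0 h1
    have h3 : 0 < s⁻¹ := inv_pos.mpr hs0
    exact (mul_pos_iff_of_pos_left h3).mp ((mul_pos_iff_of_pos_left h3).mp h2)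
  -- invariance
  have hinv : ∀ A ∈ K, ∀ Q ∈ C, Aᵀ * Q * A ∈ C := by
    intro A hA Q hQ
    have hcont : Continuous fun Q : Mt ρ => Aᵀ * Q * A := by fun_prop
    have hmaps : Set.MapsTo (fun Q : Mt ρ => Aᵀ * Q * A) (convexHull ℝ S) (convexHull ℝ S) := by
      have hsub : convexHull ℝ S ⊆ {Q : Mt ρ | Aᵀ * Q * A ∈ convexHull ℝ S} := by
        apply convexHull_min
        · rintro _ ⟨B, hB, rfl⟩
          apply subset_convexHull ℝ S
          refine ⟨B * A, hmul B hB A hA, ?_⟩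
          simp only [transpose_mul, Matrix.mul_assoc]
        · intro Q1 h1 Q2 h2 a b ha hb hab
          have h3 := (convex_convexHull ℝ S) h1 h2 ha hb hab
          show Aᵀ * (a • Q1 + b • Q2) * A ∈ convexHull ℝ S
          have e : Aᵀ * (a • Q1 + b • Q2) * A = a • (Aᵀ * Q1 * A) + b • (Aᵀ * Q2 * A) := by
            simp only [Matrix.mul_add, Matrix.add_mul, Matrix.mul_smul, Matrix.smul_mul]
          rw [e]
          exact h3
      exact hsub
    exact hmaps.closure hcont hQ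
  -- maximum
  obtain ⟨B0, hB0⟩ := hne
  have hCne : C.Nonempty := ⟨B0ᵀ * B0, hSC ⟨B0, hB0, rfl⟩⟩
  obtain ⟨Q, hQ, hmax⟩ := hCc.exists_isMaxOn hCne (f := fun Q : Mt ρ => Q.det)
    (Continuous.continuousOn (Continuous.matrix_det continuous_id))
  refine ⟨Q, hpos Q hQ, fun A hA => ?_⟩
  by_contra hcon
  have hQ' := hinv A hA Q hQ
  have hd : Q.det = (Aᵀ * Q * A).det := by
    rw [det_mul, det_mul, det_transpose]
    have h1 := hdet A hA
    have h2 : A.det * A.det = 1 := by rw [← abs_mul_abs_self, h1]; norm_num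
    calc Q.det = (A.det * A.det) * Q.det := by rw [h2, one_mul]
      _ = A.det * Q.det * A.det := by ring
  have h3 := h ρ Q (Aᵀ * Q * A) (hpos Q hQ) (hpos _ hQ') hd (fun e => hcon e.symm)
  have hmid : (1 / 2 : ℝ) • (Q + Aᵀ * Q * A) ∈ C := by
    have := hCconv hQ hQ' (a := 1 / 2) (b := 1 / 2) (by norm_num) (by norm_num) (by norm_num)
    rwa [← smul_add] at this
  have h4 := hmax hmid
  have h5 : ((1 / 2 : ℝ) • (Q + Aᵀ * Q * A)).det ≤ Q.det := h4
  exact absurd h3 (not_lt.mpr h5)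

end Pool.Agent.Helper69.PR
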